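import Pool.Agent.Lib.MP_361057_co.Main

/-!
MP_361057_co, Q1, full positive answer with the constant 992: a finite simple graph with a
992 t - oddomorphism contains the complete graph on `t` vertices as an immersion.
-/

namespace Pool.Agent.Results.MP_361057_co.OddomorphismImmersion

open OddImm

universe u

/-- For every positive integer `t` and every finite simple graph `G`, if `G` has a
`992 * t`-oddomorphism then `G` contains `K_t` as an immersion. -/
theorem result : ∀ t : ℕ, 0 < t → ∀ (V : Type u) [Finite V] (G : SimpleGraph V),
    (∃ f : V → Fin (992 * t), IsOddomorphism G f) → HasCliqueImmersion G t := by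
  rintro t ht V hV G ⟨f, hf⟩
  haveI : Fintype V := Fintype.ofFinite V
  exact main G t ht f hf

end Pool.Agent.Results.MP_361057_co.OddomorphismImmersion
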